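import Pool.Agent.N184.AF.Converse

/-!
# MP_855f4c_ag: mw purity in semistable families, for large residue characteristic or ramification
-/

set_option autoImplicit false

open IsLocalRing Pool.Agent.Y143 Pool.Agent.N184.AF

namespace Pool.Agent.Results.MP_855f4c_ag.FamiliesLargeRamification

variable {A : Type} [CommRing A] {g : A} {Ω : ℕ → Type} [∀ ℓ, Field (Ω ℓ)] [∀ ℓ, CharZero (Ω ℓ)]

/-- Let `O` be a henselian discrete valuation ring with finite residue field of characteristic `p` and
fraction field of characteristic zero, and let `s` be an `O`-valued point with `s g` a nonzero element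
of the maximal ideal (for example a uniformizer; then the fibre is semistable). If `p ≥ C` or
`(s g) ^ C` divides `p`, then the fibre over `s` is mw pure in all degrees, for all `ℓ ≠ p`. -/
def UniformlyPure (F : SemistableFamily A g Ω) (C : ℕ) : Prop :=
  ∀ (O : Type) [CommRing O] [IsDomain O] [IsDiscreteValuationRing O] [HenselianLocalRing O]
    [CharZero O] [Finite (ResidueField O)] (s : A →+* O), s g ≠ 0 → s g ∈ maximalIdeal O →
      ∀ p : ℕ, p.Prime → (p : O) ∈ maximalIdeal O → C ≤ p ∨ s g ^ C ∣ (p : O) →
        IsPureFibre F O s

/-- For all `O` and `s` as before: the fibre over `s` is mw pure in all degrees for all `ℓ ≠ p`, or the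
closed subsets `g = 0` and `p = 0` of the closure of `g ≠ 0` coincide near the image of the closed
point. -/
def PureUnlessVertical (F : SemistableFamily A g Ω) : Prop :=
  ∀ (O : Type) [CommRing O] [IsDomain O] [IsDiscreteValuationRing O] [HenselianLocalRing O]
    [CharZero O] [Finite (ResidueField O)] (s : A →+* O), s g ≠ 0 → s g ∈ maximalIdeal O →
      ∀ p : ℕ, p.Prime → (p : O) ∈ maximalIdeal O → IsPureFibre F O s ∨
        (PInG g p (closedPt s).asIdeal ∧ GInP g p (closedPt s).asIdeal)

/-- For `O`, `s` and `O'`, `s'` as before such that the images of the two closed points are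
specializations of the same point `x` of `g = 0`, and `ℓ` different from both residue
characteristics: if the fibre over `s` is mw pure in all degrees for `ℓ`, then so is the fibre over
`s'`. -/
def DeformationInvariant (F : SemistableFamily A g Ω) : Prop :=
  ∀ (O : Type) [CommRing O] [IsDomain O] [IsDiscreteValuationRing O] [HenselianLocalRing O]
    [CharZero O] [Finite (ResidueField O)] (O' : Type) [CommRing O'] [IsDomain O']
    [IsDiscreteValuationRing O'] [HenselianLocalRing O'] [CharZero O'] [Finite (ResidueField O')]
    (s : A →+* O) (s' : A →+* O') (x : PrimeSpectrum A), g ∈ x.asIdeal → x ≤ closedPt s →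
      x ≤ closedPt s' → ∀ ℓ : ℕ, ℓ.Prime → IsUnit (ℓ : O) → IsUnit (ℓ : O') →
        ∀ {Γ : Type} {n : ℕ} (X : SemistableModel.{0, 0} (Ω ℓ) Γ n (Nat.card (ResidueField O)))
          (X' : SemistableModel.{0, 0} (Ω ℓ) Γ n (Nat.card (ResidueField O'))),
          IsFibre F s ℓ X → IsFibre F s' ℓ X' →
            (∀ k : ℕ, IsMWPure (Nat.card (ResidueField O)) k (X.actV k X.frob) (X.N k)) →
              ∀ k : ℕ, IsMWPure (Nat.card (ResidueField O')) k (X'.actV k X'.frob) (X'.N k)

/-- **The monodromy-weight conjecture in semistable families.** Let `A` be a noetherian ring and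
`g ∈ A`. There is a constant `C`, which depends only on `A` and `g`, such that for every projective
strictly semistable family over `Spec A` with degeneration locus `g = 0`:

(1) the fibres over all points with values in `p`-adic rings of integers `O` are mw pure if `p ≥ C` or
if `(s g) ^ C` divides `p` (for semistable fibres, that is, for `s g` a uniformizer: if the absolute
ramification index of `O` is at least `C`);

(2) for all `p` and all ramification indices, the fibres over `O`-valued points are mw pure, unless
the degeneration locus `g = 0` coincides near the closed point with the locus `p = 0`, on the closure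
of the locus `g ≠ 0`;

(3) whether all cohomology groups of the fibre over an `O`-valued point are mw pure for `ℓ` depends
only on the irreducible component of `g = 0` which contains the image of the closed point.

The geometric input (structure `SemistableFamily` and predicate `IsFibre`): the strata of the fibres
over `g = 0` and their cohomology groups with restriction and Gysin maps, which are locally constant
away from `ℓ` (proper and smooth base change); the weight spectral sequence of Rapoport and Zink; and
the theorem of Deligne, Terasoma and Ito over discrete valuation rings of equal characteristic. -/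
theorem result {A : Type} [CommRing A] [IsNoetherianRing A] (g : A) :
    ∃ C : ℕ, ∀ (Ω : ℕ → Type) [∀ ℓ, Field (Ω ℓ)] [∀ ℓ, CharZero (Ω ℓ)] [∀ ℓ, IsAlgClosed (Ω ℓ)]
      (F : SemistableFamily A g Ω),
      UniformlyPure F C ∧ PureUnlessVertical F ∧ DeformationInvariant F := by
  obtain ⟨C, hC⟩ := exists_uniform' g
  refine ⟨C, fun Ω _ _ _ F => ⟨?_, ?_, ?_⟩⟩
  · intro O _ _ _ _ _ _ s h0 h1 p hp hpO h
    exact hC Ω F O s h0 h1 p hp hpO h
  · intro O _ _ _ _ _ _ s h0 h1 p hp hpO
    by_cases ha : PInG g p (closedPt s).asIdeal
    · by_cases hb : GInP g p (closedPt s).asIdeal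
      · exact Or.inr ⟨ha, hb⟩
      · exact Or.inl (pure_of_not_gInP F hp hpO hb)
    · exact Or.inl (pure_of_not_pInG F hp hpO h1 ha)
  · intro O _ _ _ _ _ _ O' _ _ _ _ _ _ s s' x hg hx hx' ℓ hℓ hu hu' Γ n X X' hX hX' h k
    exact invariance F s s' x hg hx hx' hℓ hu hu' X X' hX hX' h k

end Pool.Agent.Results.MP_855f4c_ag.FamiliesLargeRamification
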