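import Pool.Agent.N184.HK.W7

/-!
# The weight-monodromy conjecture for projective hyperkähler varieties

Let `X` be a projective hyperkähler variety over a number field `K`, of any deformation type, and let
`u` be a place of `K` which does not divide `ℓ`. We prove that `H^i(X_{\bar K})` is mw pure of weight
`i` at `u`, for all `i`. Inputs are the conjecture for `H²` (known), the action of `so(H²)` on the
cohomology (Verbitsky, Looijenga-Lunts) and standard facts on the cohomology at the places of good
reduction.

Idea of the proof. Let `A_i` be the algebra of the endomorphisms of `H^i` which commute with `so(H²)`.

(1) Let `v` be a place of degree one and good reduction, `S_i` the slope operator of the crystalline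
cohomology. Then `S_i = i / 2 + ρ_i (S_2 - 1) + T_i` with `T_i` in `A_i`. As `so(H²)` is perfect, the
Hodge numbers of the eigenspaces of `T_i` are `i / 2` times their dimension, and so weak
admissibility shows that `T_i` is nilpotent. Equivalently, the sum over `i` of the second moments of
the slopes is `c` times the second moment for `H²`. This only depends on the characteristic
polynomials of Frobenius, so it is also true in the `ℓ`-adic cohomology, for the valuations given by
all embeddings of the algebraic numbers. Hence `T_i` is nilpotent there, too. So the eigenvalues of
Frobenius on `A_i` (by conjugation) have trivial valuations above `p`; they are roots of unity of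
bounded order.

(2) By Chebotarev's theorem all elements of the Galois group act on `A_i` quasi-unipotently. At the
place `u` the operator `N_i - ρ_i (N_2)` is in `A_i` and it is an eigenvector for a geometric Frobenius
element with eigenvalue `1 / q`. So `N_i = ρ_i (N_2)`.

(3) Let `D_i` be the weight operator at `u`, minus `i`. Then `D_i = ρ_i (D_2) + T'_i` where `T'_i` is in
the center of `A_i`. The stabilizer in the Galois group of the spectral projection `z` of `T'_i` for the
eigenvalue `x` is open; on it, the determinants of the action on the image of `z` are, up to roots of
unity of bounded order, powers of the cyclotomic character: by (1) this is true for Frobenius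
elements. It follows that the mean weight of the image of `z` is `i`, so `x = 0`, and `T'_i` is
nilpotent.

(4) The conjecture for `H²` gives an `sl₂`-triple `(Y, D_2, N_2)` in `so(H²)`. Its image in the
endomorphisms of `H^i` shows the conjecture for `H^i`.
-/

set_option autoImplicit false

namespace Pool.Agent.Results.MP_855f4c_ag.HyperkaehlerVarieties

open Pool.Agent.N184.HK NumberField IsDedekindDomain

/-- **The weight-monodromy conjecture for projective hyperkähler varieties over number fields.** Let
`X` be a projective hyperkähler variety over the number field `K`, and `u` a place of `K` which does
not divide `ℓ`, with the local monodromy `L`. Then `H^i(X)` is mw pure of weight `i` at `u`, for all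
`i`. -/
theorem result {K : Type} [Field K] [NumberField K] {Ω : Type} [Field Ω] [CharZero Ω]
    [IsAlgClosed Ω] [TopologicalSpace Ω] [IsTopologicalRing Ω] [T2Space Ω] (X : HKVariety K Ω)
    (u : HeightOneSpectrum (𝓞 K)) (L : LocalMonodromy X u) :
    ∀ i ≤ X.d, L.IsPure i :=
  fun _ hi => pure_all L hi

end Pool.Agent.Results.MP_855f4c_ag.HyperkaehlerVarieties
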