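import Pool.Agent.N177.LP.Main

/-!
# MP_855f4c_ag: bounded families in large residue characteristic

We prove: **for every smooth proper morphism `f : X → S` of schemes of finite type over `ℤ` there is
an integer `N ≥ 1` such that the monodromy-weight conjecture holds for all fibres of `f` over all
local fields whose residue characteristic `p` does not divide `N`**: for every henselian discretely
valued field `K` with finite residue field of characteristic `p ∤ N` (with arbitrary ramification),
every point `x ∈ S(K)` (no integrality condition), every prime `ℓ ≠ p` and every `i`, the group
`H^i(X_{x, \bar K}, \bar ℚ_ℓ)` is mw pure of weight `i`. The number `N` does not depend on `K`, `x`,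
`i` and `ℓ`.

For example, the smooth closed subvarieties of `ℙ^n` of degree at most `d` over all fields are the
fibres of finitely many such families (Hilbert schemes); so there is a number `P(n, d)` such that the
monodromy-weight conjecture holds for all these varieties over all local fields of residue
characteristic larger than `P(n, d)`.

The cohomology groups are given by an abstract theory `T` with the following known properties:

* `T.Equivariance`: `N F = q F N`;
* `T.EqualCharacteristic`: Deligne's theorem (the monodromy-weight conjecture over local fields of
  positive characteristic);
* `T.TameSpecialization`: for a smooth proper family on the complement of a divisor with normal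
  crossings relative to `ℤ`, and `p` prime to some number `M`, the cohomology of the fibre at a point
  depends only on the residue point and the orders of contact with the divisor (Abhyankar's lemma,
  purity of the branch locus, Grothendieck's local monodromy theorem);

and `Hironaka` is the resolution of singularities for schemes of finite type over `ℚ`, spread out
over an open subset of `Spec ℤ`.

The idea of the proof is that, outside finitely many primes, the base has a stratification by schemes
with a smooth compactification over `ℤ[1/N]` whose boundary is a divisor with normal crossings. So a
point over a local field `K` of mixed characteristic has a companion over `k((x))` with the same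
residue point on the compactification and the same orders of contact with the boundary.
-/

set_option autoImplicit false

open CategoryTheory Limits AlgebraicGeometry IsLocalRing Module

universe v w

namespace Pool.Agent.Results.MP_855f4c_ag.LargeResidueCharacteristic

open Pool.Agent.N177.LP Pool.Agent.Y143

/-- Let `T` be the theory of `ℓ`-adic cohomology groups of smooth proper varieties over local fields
(with the properties listed above), and let `f : X → S` be a smooth proper morphism, where `S` is of
finite type over `ℤ`. There is `N ≠ 0` such that for all prime numbers `ℓ`, all local fields `L` with
residue characteristic different from `ℓ` and not dividing `N`, all points `x` of `S` with values in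
`L.K` and all `i`, the group `H^i` of the fibre of `f` at `x` is mw pure of weight `i`. -/
theorem result {Ω : Type w} [Field Ω] [CharZero Ω] [IsAlgClosed Ω] (T : Theory.{v, w} Ω)
    (h1 : T.Equivariance) (h2 : T.EqualCharacteristic) (h3 : T.TameSpecialization)
    (h4 : Hironaka) {S X : Scheme.{0}} (s : S ⟶ Spec (.of ℤ)) (hs : LocallyOfFiniteType s)
    (hs' : QuasiCompact s) (f : X ⟶ S) (hf : Smooth f) (hf' : IsProper f) :
    ∃ N : ℕ, N ≠ 0 ∧ ∀ (ℓ : ℕ) (L : LocalField), ℓ.Prime → ℓ ≠ L.p → ¬ L.p ∣ N →
      ∀ (x : Spec (.of L.K) ⟶ S) (i : ℕ),
        IsMWPure L.q i (T.H ℓ L _ (pullback.snd f x) i).F (T.H ℓ L _ (pullback.snd f x) i).N :=
  main h1 h2 h3 h4 s hs hs' f hf hf'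

end Pool.Agent.Results.MP_855f4c_ag.LargeResidueCharacteristic
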