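import Pool.Agent.N184.WM.Geo
import Pool.Agent.N184.WM.Defs

/-!
# The weight-monodromy conjecture for the outer graded pieces of the monodromy filtration

For a projective strictly semistable scheme `X` of relative dimension `n` over a henselian discrete
valuation ring with finite residue field, and for every degree `k`, the assertion of the
weight-monodromy conjecture holds for the graded pieces `gr_s` of the monodromy filtration of `H^k`
with `|s| ≥ min (k, 2 n - k) - 2`.
-/

namespace Pool.Agent.Results.MP_855f4c_ag.OuterWeights

universe u v

open Module Pool.Agent.Y143 Pool.Agent.X302.MW Pool.Agent.N184.WM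

variable {Ω : Type u} [Field Ω] [CharZero Ω] [IsAlgClosed Ω] {Γ : Type} {n q : ℕ}

/-- Let `X` be a projective strictly semistable scheme of relative dimension `n` over a henselian
discrete valuation ring whose residue field has `q` elements, `k` a natural number, `Φ` the action of
a geometric Frobenius element on `V = H^k(X_{\bar K}, Ω)`, `N` the logarithm of the monodromy and `M`
the monodromy filtration of `N`. If `|s| ≥ min (k, 2 n - k) - w₀ - 1`, then `Φ` stabilizes `M_s` and
all its eigenvalues on `M_s / M_(s - 1)` are `q`-Weil numbers of weight `k + s`.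

Here `w₀ = 1` is always allowed (the condition `hA` is empty); a larger `w₀` is allowed if the
characters are controlled in the weights `2 ≤ w ≤ w₀`, for example `w₀ = 2` if the groups
`H^2(Y^(a+1))` with `a + 3 ≤ min (k, 2 n - k)` are spanned by the classes of divisors. -/
theorem result (X : Degeneration.{u, v} Ω Γ n q) (A : DivisorClasses X.toSpecialFibre)
    (k w₀ : ℕ) (hA : ControlledUpTo A k w₀) (hN : IsTwisted q (X.actV k X.frob) (X.N k))
    (s : ℤ) (hs : (k : ℤ) - w₀ - 1 ≤ |s| ∨ 2 * (n : ℤ) - k - w₀ - 1 ≤ |s|) :
    IsPureAt q k (X.actV k X.frob) (X.N k) s :=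
  fun M hM => N184.WM.outer X A k w₀ hA hN M hM s hs

end Pool.Agent.Results.MP_855f4c_ag.OuterWeights
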